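import Mathlib

/-!
Sequential OWA rules under which free-riding is never harmful: the complete classification.
-/

set_option autoImplicit false

open Finset

namespace Pool.Agent.Results.MP_57045c_lc.Classification

/-- An issue for `n` voters: the candidates are `0, …, last` (at least one), listed in the
tie-breaking order of the issue, and `app c` is the set of the voters approving the candidate `c`. -/
structure Issue (n : ℕ) where
  last : ℕ
  app : ℕ → Finset (Fin n)

/-- The satisfactions after a candidate approved exactly by the voters in `X` is added. -/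
def bump {n : ℕ} (s : Fin n → ℕ) (X : Finset (Fin n)) : Fin n → ℕ :=
  fun v => s v + if v ∈ X then 1 else 0

/-- The OWA score of a vector of satisfactions: sort it increasingly, then take the scalar product
with `α`. -/
noncomputable def owa {n : ℕ} (α : Fin n → ℝ) (s : Fin n → ℕ) : ℝ :=
  ∑ j, α j * (s (Tuple.sort s j) : ℝ)

/-- The winner of an issue if the satisfactions so far are `s`: the first (in the tie-breaking
order) of the candidates of maximal score. -/
noncomputable def winner {n : ℕ} (α : Fin n → ℝ) (s : Fin n → ℕ) (I : Issue n) : ℕ :=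
  sInf {c | c ≤ I.last ∧ ∀ d ≤ I.last, owa α (bump s (I.app d)) ≤ owa α (bump s (I.app c))}

/-- The winners chosen by the sequential rule, if the satisfactions before are `s`. -/
noncomputable def run {n : ℕ} (α : Fin n → ℝ) : (Fin n → ℕ) → List (Issue n) → List ℕ
  | _, [] => []
  | s, I :: E => winner α s I :: run α (bump s (I.app (winner α s I))) E

/-- The outcome of the sequential `α`-OWA rule on the election with the list of issues `E`. -/
noncomputable def outcome {n : ℕ} (α : Fin n → ℝ) (E : List (Issue n)) : List ℕ :=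
  run α (fun _ => 0) E

/-- The satisfaction of the voter `v` with the outcome `w` of the election `E`: the number of
issues whose winner `v` approves. -/
def sat {n : ℕ} (v : Fin n) : List (Issue n) → List ℕ → ℕ
  | I :: E, c :: w => (if v ∈ I.app c then 1 else 0) + sat v E w
  | _, _ => 0

/-- Free-riding is never harmful for the weights `α` (elections with `n` voters): whenever the
issue `I` (after the issues `P` and before the issues `Q`) is replaced by an issue `I'` that differs
only in the ballot of the voter `v`, the winner `c` of this issue stays the same, `v` approves `c` in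
`I` but not in `I'`, the true satisfaction of `v` does not decrease. -/
def NeverHarmful {n : ℕ} (α : Fin n → ℝ) : Prop :=
  ∀ (P Q : List (Issue n)) (I I' : Issue n) (v : Fin n) (c : ℕ),
    I'.last = I.last → (∀ d ≤ I.last, ∀ u, u ≠ v → (u ∈ I'.app d ↔ u ∈ I.app d)) →
    (outcome α (P ++ I :: Q))[P.length]? = some c →
    (outcome α (P ++ I' :: Q))[P.length]? = some c →
    v ∈ I.app c → v ∉ I'.app c →
    sat v (P ++ I :: Q) (outcome α (P ++ I :: Q)) ≤ sat v (P ++ I :: Q) (outcome α (P ++ I' :: Q))

/-! ### Basic lemmas -/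

section basic

variable {n : ℕ}

theorem winner_spec (α : Fin n → ℝ) (s : Fin n → ℕ) (I : Issue n) :
    winner α s I ≤ I.last ∧
      ∀ d ≤ I.last, owa α (bump s (I.app d)) ≤ owa α (bump s (I.app (winner α s I))) := by
  have hne : {c | c ≤ I.last ∧
      ∀ d ≤ I.last, owa α (bump s (I.app d)) ≤ owa α (bump s (I.app c))}.Nonempty := by
    obtain ⟨c, hc, hmax⟩ := Finset.exists_max_image (Finset.range (I.last + 1))
      (fun c => owa α (bump s (I.app c))) ⟨0, by simp⟩
    exact ⟨c, by simpa [Nat.lt_succ_iff] using hc, fun d hd => hmax d (by simp; omega)⟩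
  exact Nat.sInf_mem hne

theorem winner_le (α : Fin n → ℝ) (s : Fin n → ℕ) (I : Issue n) (c : ℕ) (hc : c ≤ I.last)
    (h : owa α (bump s (I.app (winner α s I))) ≤ owa α (bump s (I.app c))) :
    winner α s I ≤ c := by
  refine Nat.sInf_le ⟨hc, fun d hd => ?_⟩
  exact ((winner_spec α s I).2 d hd).trans h

/-- Two runs with different winners cannot both be indifferent. -/
theorem winner_eq_of_ties (α : Fin n → ℝ) (s s' : Fin n → ℕ) (I : Issue n)
    (h1 : owa α (bump s (I.app (winner α s I))) = owa α (bump s (I.app (winner α s' I))))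
    (h2 : owa α (bump s' (I.app (winner α s' I))) = owa α (bump s' (I.app (winner α s I)))) :
    winner α s I = winner α s' I := by
  apply le_antisymm
  · exact winner_le α s I _ (winner_spec α s' I).1 h1.le
  · exact winner_le α s' I _ (winner_spec α s I).1 h2.le

theorem owa_of_sorted (α : Fin n → ℝ) (s x : Fin n → ℕ) (σ : Equiv.Perm (Fin n))
    (hx : Monotone x) (h : s ∘ σ = x) : owa α s = ∑ j, α j * (x j : ℝ) := by
  have h2 : s ∘ (Tuple.sort s) = x := by
    rw [← h] at hx ⊢
    exact Tuple.unique_monotone (Tuple.monotone_sort s) hx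
  unfold owa
  refine Finset.sum_congr rfl fun j _ => ?_
  rw [← h2]; rfl

theorem run_length (α : Fin n → ℝ) (s : Fin n → ℕ) (E : List (Issue n)) :
    (run α s E).length = E.length := by
  induction E generalizing s with
  | nil => rfl
  | cons I E ih => simp [run, ih]

/-- The satisfactions after a run. -/
noncomputable def after (α : Fin n → ℝ) : (Fin n → ℕ) → List (Issue n) → (Fin n → ℕ)
  | s, [] => s
  | s, I :: E => after α (bump s (I.app (winner α s I))) E

theorem run_append (α : Fin n → ℝ) (s : Fin n → ℕ) (P Q : List (Issue n)) :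
    run α s (P ++ Q) = run α s P ++ run α (after α s P) Q := by
  induction P generalizing s with
  | nil => rfl
  | cons I P ih => simp [run, after, ih]

theorem sat_append (v : Fin n) (P Q : List (Issue n)) (w w' : List ℕ) (h : P.length = w.length) :
    sat v (P ++ Q) (w ++ w') = sat v P w + sat v Q w' := by
  induction P generalizing w with
  | nil =>
    have : w = [] := List.length_eq_zero_iff.1 (by simpa using h.symm)
    subst this
    simp [sat]
  | cons I P ih =>
    cases w with
    | nil => simp at h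
    | cons c w =>
      simp only [List.cons_append, sat]
      rw [ih w (by simpa using h)]
      ring

theorem after_eq (α : Fin n → ℝ) (s : Fin n → ℕ) (E : List (Issue n)) (v : Fin n) :
    after α s E v = s v + sat v E (run α s E) := by
  induction E generalizing s with
  | nil => simp [after, sat]
  | cons I E ih =>
    simp only [after, sat, run]
    rw [ih]
    simp only [bump]
    ring

/-- Free-riding is never harmful iff no single continuation is harmful. -/
theorem neverHarmful_of_inv (α : Fin n → ℝ) (Inv : (Fin n → ℕ) → (Fin n → ℕ) → Prop)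
    (h0 : ∀ (s : Fin n → ℕ) (v : Fin n), Inv (fun u => s u + if u = v then 1 else 0) s)
    (h1 : ∀ s s' v, Inv s s' → s v ≤ s' v + 1)
    (h2 : ∀ s s' (I : Issue n), Inv s s' →
      Inv (bump s (I.app (winner α s I))) (bump s' (I.app (winner α s' I)))) :
    NeverHarmful α := by
  have key : ∀ (Q : List (Issue n)) (s s' : Fin n → ℕ), Inv s s' →
      Inv (after α s Q) (after α s' Q) := by
    intro Q
    induction Q with
    | nil => intro s s' h; exact h
    | cons I Q ih => intro s s' h; exact ih _ _ (h2 s s' I h)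
  intro P Q I I' v c hlast happ hc hc' hv hv'
  unfold outcome at *
  rw [run_append] at hc hc'
  have hlen : (run α (fun _ => 0) P).length = P.length := run_length _ _ _
  rw [List.getElem?_append_right (by omega), hlen, Nat.sub_self] at hc hc'
  simp only [run, List.getElem?_cons_zero, Option.some.injEq] at hc hc'
  set s := after α (fun _ => 0) P with hs
  have hcl : c ≤ I.last := by rw [← hc]; exact (winner_spec α s I).1
  rw [run_append, run_append, ← hs, sat_append _ _ _ _ _ hlen.symm, sat_append _ _ _ _ _ hlen.symm]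
  simp only [run, sat, hc, hc', hv, if_true]
  have e : bump s (I.app c) = fun u => bump s (I'.app c) u + if u = v then 1 else 0 := by
    funext u
    by_cases hu : u = v
    · subst hu; simp [bump, hv, hv']
    · simp [bump, hu, happ c hcl u hu]
  have hi := h1 _ _ v (key Q (bump s (I.app c)) (bump s (I'.app c)) (by rw [e]; exact h0 _ v))
  rw [after_eq, after_eq] at hi
  have e2 : bump s (I.app c) v = bump s (I'.app c) v + 1 := by rw [e]; simp
  omega

end basic

/-! ### The utilitarian rule -/

theorem owa_const {n : ℕ} (α : Fin n → ℝ) (c : ℝ) (h : ∀ j, α j = c) (s : Fin n → ℕ) :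
    owa α s = c * ((∑ v, s v : ℕ) : ℝ) := by
  unfold owa
  simp only [h]
  rw [← Finset.mul_sum]
  congr 1
  push_cast
  exact Equiv.sum_comp (Tuple.sort s) (fun v => (s v : ℝ))

theorem sum_bump {n : ℕ} (s : Fin n → ℕ) (X : Finset (Fin n)) :
    ∑ v, bump s X v = ∑ v, s v + X.card := by
  simp only [bump, Finset.sum_add_distrib]
  congr 1
  simp

theorem winner_const {n : ℕ} (α : Fin n → ℝ) (c : ℝ) (h : ∀ j, α j = c) (s s' : Fin n → ℕ)
    (I : Issue n) : winner α s I = winner α s' I := by
  unfold winner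
  congr 1
  ext d
  simp only [Set.mem_ofPred_eq, owa_const α c h, sum_bump]
  refine and_congr_right fun _ => forall_congr' fun e => imp_congr_right fun _ => ?_
  push_cast
  constructor <;> intro h <;> nlinarith

theorem neverHarmful_const {n : ℕ} (α : Fin n → ℝ) (c : ℝ) (h : ∀ j, α j = c) :
    NeverHarmful α := by
  apply neverHarmful_of_inv α (fun s s' => ∀ v, s v ≤ s' v + 1)
  · intro s v u; dsimp only; split_ifs <;> omega
  · intro s s' v h; exact h v
  · intro s s' I hi v
    rw [winner_const α c h s s' I]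
    have := hi v
    simp only [bump]
    omega

/-! ### Two voters -/

theorem owa_two (α : Fin 2 → ℝ) (s : Fin 2 → ℕ) :
    owa α s = α 0 * ((min (s 0) (s 1) : ℕ) : ℝ) + α 1 * ((max (s 0) (s 1) : ℕ) : ℝ) := by
  rcases le_total (s 0) (s 1) with h | h
  · rw [owa_of_sorted α s s 1 (by intro i j hij; fin_cases i <;> fin_cases j <;> simp_all) rfl]
    simp [Fin.sum_univ_two, min_eq_left h, max_eq_right h]
  · rw [owa_of_sorted α s ![s 1, s 0] (Equiv.swap 0 1)
      (by intro i j hij; fin_cases i <;> fin_cases j <;> simp_all)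
      (by funext i; fin_cases i <;> simp)]
    simp [Fin.sum_univ_two, min_eq_right h, max_eq_left h]

theorem neverHarmful_two (α : Fin 2 → ℝ) (h : α 1 ≤ α 0) : NeverHarmful α := by
  apply neverHarmful_of_inv α (fun s s' => ∀ v, s' v ≤ s v ∧ s v ≤ s' v + 1)
  · intro s v u; dsimp only; split_ifs <;> omega
  · intro s s' v h; exact (h v).2
  · intro s s' I hi
    set c := winner α s I with hc
    set d := winner α s' I with hd
    by_cases hcd : c = d
    · intro v
      have := hi v
      rw [hcd]
      simp only [bump]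
      omega
    have h1 : owa α (bump s (I.app d)) ≤ owa α (bump s (I.app c)) :=
      (winner_spec α s I).2 d (winner_spec α s' I).1
    have h2 : owa α (bump s' (I.app c)) ≤ owa α (bump s' (I.app d)) :=
      (winner_spec α s' I).2 c (winner_spec α s I).1
    have h3 : 0 < (owa α (bump s (I.app c)) - owa α (bump s (I.app d))) +
        (owa α (bump s' (I.app d)) - owa α (bump s' (I.app c))) := by
      by_contra hneg
      exact hcd (winner_eq_of_ties α s s' I (by linarith) (by linarith))
    rw [owa_two, owa_two, owa_two, owa_two] at h3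
    have b0 := hi 0
    have b1 := hi 1
    have hx0 : (if (0 : Fin 2) ∈ I.app c then 1 else 0) ≤ 1 := by split_ifs <;> simp
    have hx1 : (if (1 : Fin 2) ∈ I.app c then 1 else 0) ≤ 1 := by split_ifs <;> simp
    have hy0 : (if (0 : Fin 2) ∈ I.app d then 1 else 0) ≤ 1 := by split_ifs <;> simp
    have hy1 : (if (1 : Fin 2) ∈ I.app d then 1 else 0) ≤ 1 := by split_ifs <;> simp
    rw [Fin.forall_fin_two]
    simp only [bump] at h3 ⊢
    generalize (if (0 : Fin 2) ∈ I.app c then 1 else 0) = x0 at *
    generalize (if (1 : Fin 2) ∈ I.app c then 1 else 0) = x1 at *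
    generalize (if (0 : Fin 2) ∈ I.app d then 1 else 0) = y0 at *
    generalize (if (1 : Fin 2) ∈ I.app d then 1 else 0) = y1 at *
    have e1 := min_add_max (s 0 + x0) (s 1 + x1)
    have e2 := min_add_max (s 0 + y0) (s 1 + y1)
    have e3 := min_add_max (s' 0 + y0) (s' 1 + y1)
    have e4 := min_add_max (s' 0 + x0) (s' 1 + x1)
    have hD : min (s 0 + y0) (s 1 + y1) + min (s' 0 + x0) (s' 1 + x1) <
        min (s 0 + x0) (s 1 + x1) + min (s' 0 + y0) (s' 1 + y1) := by
      by_contra hneg
      push Not at hneg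
      have f1 : ((max (s 0 + x0) (s 1 + x1) : ℕ) : ℝ) =
          (s 0 + x0 + (s 1 + x1) : ℝ) - ((min (s 0 + x0) (s 1 + x1) : ℕ) : ℝ) := by
        have := congrArg (Nat.cast : ℕ → ℝ) e1
        push_cast at this ⊢; linarith
      have f2 : ((max (s 0 + y0) (s 1 + y1) : ℕ) : ℝ) =
          (s 0 + y0 + (s 1 + y1) : ℝ) - ((min (s 0 + y0) (s 1 + y1) : ℕ) : ℝ) := by
        have := congrArg (Nat.cast : ℕ → ℝ) e2
        push_cast at this ⊢; linarith
      have f3 : ((max (s' 0 + y0) (s' 1 + y1) : ℕ) : ℝ) =
          (s' 0 + y0 + (s' 1 + y1) : ℝ) - ((min (s' 0 + y0) (s' 1 + y1) : ℕ) : ℝ) := by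
        have := congrArg (Nat.cast : ℕ → ℝ) e3
        push_cast at this ⊢; linarith
      have f4 : ((max (s' 0 + x0) (s' 1 + x1) : ℕ) : ℝ) =
          (s' 0 + x0 + (s' 1 + x1) : ℝ) - ((min (s' 0 + x0) (s' 1 + x1) : ℕ) : ℝ) := by
        have := congrArg (Nat.cast : ℕ → ℝ) e4
        push_cast at this ⊢; linarith
      rw [f1, f2, f3, f4] at h3
      have g : ((min (s 0 + x0) (s 1 + x1) : ℕ) : ℝ) + ((min (s' 0 + y0) (s' 1 + y1) : ℕ) : ℝ) ≤
          ((min (s 0 + y0) (s 1 + y1) : ℕ) : ℝ) + ((min (s' 0 + x0) (s' 1 + x1) : ℕ) : ℝ) := by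
        exact_mod_cast hneg
      nlinarith [mul_nonneg (sub_nonneg.2 h) (sub_nonneg.2 g)]
    omega

/-! ### Three voters -/

theorem owa_three (α : Fin 3 → ℝ) (s : Fin 3 → ℕ) :
    owa α s = α 0 * ((min (s 0) (min (s 1) (s 2)) : ℕ) : ℝ) +
      α 1 * ((s 0 + s 1 + s 2 : ℕ) - ((min (s 0) (min (s 1) (s 2)) : ℕ) : ℝ) -
        ((max (s 0) (max (s 1) (s 2)) : ℕ) : ℝ)) +
      α 2 * ((max (s 0) (max (s 1) (s 2)) : ℕ) : ℝ) := by
  set σ := Tuple.sort s with hσ
  have hm : Monotone (s ∘ σ) := Tuple.monotone_sort s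
  have h01 : s (σ 0) ≤ s (σ 1) := hm (by decide)
  have h12 : s (σ 1) ≤ s (σ 2) := hm (by decide)
  have hlo : ∀ i, s (σ 0) ≤ s i := fun i => by
    have := hm (Fin.zero_le (σ.symm i))
    simpa using this
  have hhi : ∀ i, s i ≤ s (σ 2) := fun i => by
    have := hm (show σ.symm i ≤ 2 from Fin.le_last _)
    simpa using this
  have hmin : min (s 0) (min (s 1) (s 2)) = s (σ 0) := by
    apply le_antisymm
    · have : ∀ i : Fin 3, min (s 0) (min (s 1) (s 2)) ≤ s i := by
        intro i; fin_cases i <;> simp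
      exact this _
    · exact le_min (hlo 0) (le_min (hlo 1) (hlo 2))
  have hmax : max (s 0) (max (s 1) (s 2)) = s (σ 2) := by
    apply le_antisymm
    · exact max_le (hhi 0) (max_le (hhi 1) (hhi 2))
    · have : ∀ i : Fin 3, s i ≤ max (s 0) (max (s 1) (s 2)) := by
        intro i; fin_cases i <;> simp
      exact this _
  have hsum : s 0 + s 1 + s 2 = s (σ 0) + s (σ 1) + s (σ 2) := by
    have := Equiv.sum_comp σ s
    rw [Fin.sum_univ_three, Fin.sum_univ_three] at this
    exact this.symm
  rw [hmin, hmax, hsum]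
  unfold owa
  rw [Fin.sum_univ_three, ← hσ]
  push_cast
  ring

theorem real_cmp (α : Fin 3 → ℝ) (h01 : α 1 < α 0) (h12 : α 2 < α 1) (S m1 M1 m2 M2 : ℕ)
    (hm : m2 ≤ m1) (hM : M1 ≤ M2) (hs : m2 < m1 ∨ M1 < M2) :
    α 0 * (m2 : ℝ) + α 1 * ((S : ℝ) - m2 - M2) + α 2 * (M2 : ℝ) <
      α 0 * (m1 : ℝ) + α 1 * ((S : ℝ) - m1 - M1) + α 2 * (M1 : ℝ) := by
  have hm' : (m2 : ℝ) ≤ m1 := by exact_mod_cast hm
  have hM' : (M1 : ℝ) ≤ M2 := by exact_mod_cast hM
  rcases hs with hs | hs
  · have hs' : (m2 : ℝ) < m1 := by exact_mod_cast hs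
    nlinarith [mul_pos (sub_pos.2 h01) (sub_pos.2 hs'), mul_nonneg (sub_pos.2 h12).le
      (sub_nonneg.2 hM')]
  · have hs' : (M1 : ℝ) < M2 := by exact_mod_cast hs
    nlinarith [mul_nonneg (sub_pos.2 h01).le (sub_nonneg.2 hm'), mul_pos (sub_pos.2 h12)
      (sub_pos.2 hs')]

theorem swap_lt (α : Fin 3 → ℝ) (h01 : α 1 < α 0) (h12 : α 2 < α 1) (t : Fin 3 → ℕ)
    (x y : Fin 3) (hxy : t x < t y) :
    owa α (bump t {y}) < owa α (bump t {x}) := by
  rw [owa_three, owa_three]
  have hS : bump t {y} 0 + bump t {y} 1 + bump t {y} 2 =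
      bump t {x} 0 + bump t {x} 1 + bump t {x} 2 := by
    fin_cases x <;> fin_cases y <;> simp [bump] <;> omega
  rw [hS]
  apply real_cmp α h01 h12
  · fin_cases x <;> fin_cases y <;> simp_all [bump] <;> omega
  · fin_cases x <;> fin_cases y <;> simp_all [bump] <;> omega
  · fin_cases x <;> fin_cases y <;> simp_all [bump] <;> omega

theorem swap_eq (α : Fin 3 → ℝ) (t : Fin 3 → ℕ) (x y : Fin 3) (hxy : t x = t y) :
    owa α (bump t {y}) = owa α (bump t {x}) := by
  rw [owa_three, owa_three]
  have hS : bump t {y} 0 + bump t {y} 1 + bump t {y} 2 =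
      bump t {x} 0 + bump t {x} 1 + bump t {x} 2 := by
    fin_cases x <;> fin_cases y <;> simp [bump] <;> omega
  have hm : min (bump t {y} 0) (min (bump t {y} 1) (bump t {y} 2)) =
      min (bump t {x} 0) (min (bump t {x} 1) (bump t {x} 2)) := by
    fin_cases x <;> fin_cases y <;> simp_all [bump] <;> omega
  have hM : max (bump t {y} 0) (max (bump t {y} 1) (bump t {y} 2)) =
      max (bump t {x} 0) (max (bump t {x} 1) (bump t {x} 2)) := by
    fin_cases x <;> fin_cases y <;> simp_all [bump] <;> omega
  rw [hS, hm, hM]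

theorem size_first (α : Fin 3 → ℝ) (h01 : α 1 < α 0) (h12 : α 2 < α 1) (h2 : 0 < α 2)
    (h : α 0 < α 1 + α 2) (s : Fin 3 → ℕ) (X Y : Finset (Fin 3)) (hXY : X.card < Y.card) :
    owa α (bump s X) < owa α (bump s Y) := by
  rw [owa_three, owa_three]
  have hSX := sum_bump s X
  have hSY := sum_bump s Y
  rw [Fin.sum_univ_three, Fin.sum_univ_three] at hSX hSY
  rw [hSX, hSY]
  have b : ∀ (Z : Finset (Fin 3)) (i : Fin 3), s i ≤ bump s Z i ∧ bump s Z i ≤ s i + 1 := by
    intro Z i; simp only [bump]; split_ifs <;> omega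
  have hm : min (bump s X 0) (min (bump s X 1) (bump s X 2)) ≤
      min (bump s Y 0) (min (bump s Y 1) (bump s Y 2)) + 1 := by
    have := b X 0; have := b X 1; have := b X 2; have := b Y 0; have := b Y 1; have := b Y 2
    omega
  have hM : max (bump s Y 0) (max (bump s Y 1) (bump s Y 2)) ≤
      max (bump s X 0) (max (bump s X 1) (bump s X 2)) + 1 := by
    have := b X 0; have := b X 1; have := b X 2; have := b Y 0; have := b Y 1; have := b Y 2
    omega
  generalize min (bump s X 0) (min (bump s X 1) (bump s X 2)) = m1 at *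
  generalize min (bump s Y 0) (min (bump s Y 1) (bump s Y 2)) = m2 at *
  generalize max (bump s X 0) (max (bump s X 1) (bump s X 2)) = M1 at *
  generalize max (bump s Y 0) (max (bump s Y 1) (bump s Y 2)) = M2 at *
  have hm' : (m1 : ℝ) ≤ m2 + 1 := by exact_mod_cast hm
  have hM' : (M2 : ℝ) ≤ M1 + 1 := by exact_mod_cast hM
  have hc : (X.card : ℝ) + 1 ≤ Y.card := by exact_mod_cast hXY
  push_cast
  nlinarith [mul_nonneg (sub_pos.2 h01).le (sub_nonneg.2 hm'), mul_nonneg (sub_pos.2 h12).le
      (sub_nonneg.2 hM'), mul_nonneg (h2.le.trans h12.le) (sub_nonneg.2 hc)]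

theorem exchange : ∀ X Y : Finset (Fin 3), X.card = Y.card → X ≠ Y →
    ∃ x y : Fin 3, ∃ Z : Finset (Fin 3), x ∉ Z ∧ y ∉ Z ∧ x ≠ y ∧ X = insert x Z ∧ Y = insert y Z := by
  decide

theorem bump_insert {n : ℕ} (s : Fin n → ℕ) (x : Fin n) (Z : Finset (Fin n)) (hx : x ∉ Z) :
    bump s (insert x Z) = bump (bump s Z) {x} := by
  funext v
  simp only [bump, Finset.mem_insert, Finset.mem_singleton]
  by_cases hv : v = x
  · subst hv; simp [hx]
  · simp [hv]

theorem neverHarmful_three (α : Fin 3 → ℝ) (h01 : α 1 < α 0) (h12 : α 2 < α 1) (h2 : 0 < α 2)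
    (h : α 0 < α 1 + α 2) : NeverHarmful α := by
  apply neverHarmful_of_inv α (fun s s' => ∃ j, ∀ u, s u = s' u + if u = j then 1 else 0)
  · intro s v; exact ⟨v, fun u => rfl⟩
  · rintro s s' v ⟨j, hj⟩; rw [hj v]; split_ifs <;> omega
  · rintro s s' I ⟨j, hj⟩
    set c := winner α s I with hc
    set d := winner α s' I with hd
    have h1 : owa α (bump s (I.app d)) ≤ owa α (bump s (I.app c)) :=
      (winner_spec α s I).2 d (winner_spec α s' I).1
    have h2' : owa α (bump s' (I.app c)) ≤ owa α (bump s' (I.app d)) :=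
      (winner_spec α s' I).2 c (winner_spec α s I).1
    have hcard : (I.app c).card = (I.app d).card := by
      rcases lt_trichotomy (I.app c).card (I.app d).card with hlt | heq | hgt
      · exact absurd (size_first α h01 h12 h2 h s _ _ hlt) (not_lt.2 h1)
      · exact heq
      · exact absurd (size_first α h01 h12 h2 h s' _ _ hgt) (not_lt.2 h2')
    by_cases hXY : I.app c = I.app d
    · refine ⟨j, fun u => ?_⟩
      rw [hXY]
      simp only [bump]
      rw [hj u]
      ring
    obtain ⟨x, y, Z, hx, hy, hxy, hX, hY⟩ := exchange _ _ hcard hXY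
    rw [hX, hY, bump_insert _ _ _ hx, bump_insert _ _ _ hy] at h1 h2'
    have a1 : bump s Z x ≤ bump s Z y := by
      by_contra hneg
      exact absurd (swap_lt α h01 h12 (bump s Z) y x (not_le.1 hneg)) (not_lt.2 h1)
    have a2 : bump s' Z y ≤ bump s' Z x := by
      by_contra hneg
      exact absurd (swap_lt α h01 h12 (bump s' Z) x y (not_le.1 hneg)) (not_lt.2 h2')
    simp only [bump, hx, hy, if_false, add_zero] at a1 a2
    have jx := hj x
    have jy := hj y
    by_cases hjy : y = j
    · refine ⟨x, fun u => ?_⟩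
      rw [hX, hY]
      simp only [bump, Finset.mem_insert]
      rw [hj u, ← hjy]
      by_cases h3 : u = x
      · subst h3; simp [hxy, hx]
      · by_cases h4 : u = y
        · subst h4; simp [hy, Ne.symm hxy]
        · simp [h3, h4]
    · exfalso
      rw [if_neg hjy] at jy
      have ex : s x = s y := by
        have : s' x ≤ s x := by rw [jx]; omega
        omega
      have ex' : s' x = s' y := by
        have : s' x ≤ s x := by rw [jx]; omega
        omega
      have : c = d := by
        apply winner_eq_of_ties α s s' I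
        · rw [← hc, ← hd, hX, hY, bump_insert _ _ _ hx, bump_insert _ _ _ hy]
          exact swap_eq α _ y x (by simp [bump, hx, hy, ex])
        · rw [← hc, ← hd, hX, hY, bump_insert _ _ _ hx, bump_insert _ _ _ hy]
          exact swap_eq α _ x y (by simp [bump, hx, hy, ex'])
      exact hXY (by rw [this])

/-! ### Windows: the weights of a block of consecutive positions -/

section window

variable (r m q : ℕ)

/-- The voters of the window. -/
def emb : Fin m ↪ Fin (r + m + q) := (Fin.natAddEmb r).trans (Fin.castAddEmb q)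

/-- The weights of the window. -/
def win (α : Fin (r + m + q) → ℝ) : Fin m → ℝ := fun j => α (emb r m q j)

/-- The first `r` voters have satisfaction `0`, the last `q` voters have satisfaction `H`. -/
def blk (H : ℕ) (s : Fin m → ℕ) : Fin (r + m + q) → ℕ :=
  Fin.append (Fin.append (fun _ : Fin r => 0) s) (fun _ : Fin q => H)

theorem monotone_append {a b : ℕ} (f : Fin a → ℕ) (g : Fin b → ℕ) (hf : Monotone f)
    (hg : Monotone g) (hfg : ∀ i j, f i ≤ g j) : Monotone (Fin.append f g) := by
  intro i j
  refine Fin.addCases (fun i => ?_) (fun i => ?_) i <;>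
    refine Fin.addCases (fun j => ?_) (fun j => ?_) j
  · intro h
    rw [Fin.append_left, Fin.append_left]
    exact hf (show i.val ≤ j.val from h)
  · intro h
    rw [Fin.append_left, Fin.append_right]
    exact hfg _ _
  · intro h
    exfalso
    simp only [Fin.le_def, Fin.val_natAdd, Fin.val_castAdd] at h
    omega
  · intro h
    rw [Fin.append_right, Fin.append_right]
    exact hg (by simpa using h)

/-- A permutation of the window, extended by the identity. -/
def ext (τ : Equiv.Perm (Fin m)) : Equiv.Perm (Fin (r + m + q)) :=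
  finSumFinEquiv.symm.trans
    ((Equiv.sumCongr (finSumFinEquiv.symm.trans ((Equiv.sumCongr (Equiv.refl _) τ).trans
      finSumFinEquiv)) (Equiv.refl _)).trans finSumFinEquiv)

theorem blk_ext (H : ℕ) (s : Fin m → ℕ) (τ : Equiv.Perm (Fin m)) :
    blk r m q H s ∘ ext r m q τ = blk r m q H (s ∘ τ) := by
  funext i
  refine Fin.addCases (fun i => ?_) (fun i => ?_) i
  · refine Fin.addCases (fun i => ?_) (fun i => ?_) i
    · simp [blk, ext]
    · simp [blk, ext]
  · simp [blk, ext]

theorem owa_blk (α : Fin (r + m + q) → ℝ) (H : ℕ) (s : Fin m → ℕ) (hs : ∀ w, s w ≤ H) :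
    owa α (blk r m q H s) =
      owa (win r m q α) s + ∑ k : Fin q, α (Fin.natAdd (r + m) k) * (H : ℝ) := by
  rw [owa_of_sorted α _ (blk r m q H (s ∘ Tuple.sort s)) (ext r m q (Tuple.sort s)) ?_
    (blk_ext r m q H s _)]
  · rw [Fin.sum_univ_add, Fin.sum_univ_add]
    simp only [blk, Fin.append_left, Fin.append_right]
    simp [owa, win, emb]
  · apply monotone_append
    · apply monotone_append
      · exact monotone_const
      · exact Tuple.monotone_sort s
      · intro i j; exact Nat.zero_le _
    · exact monotone_const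
    · intro i j
      refine Fin.addCases (fun i => ?_) (fun i => ?_) i
      · simp
      · simpa using hs _

/-- The lifted issue. -/
def lift (I : Issue m) : Issue (r + m + q) := ⟨I.last, fun c => (I.app c).map (emb r m q)⟩

theorem bump_blk (H : ℕ) (s : Fin m → ℕ) (X : Finset (Fin m)) :
    bump (blk r m q H s) (X.map (emb r m q)) = blk r m q H (bump s X) := by
  funext i
  refine Fin.addCases (fun i => ?_) (fun i => ?_) i
  · refine Fin.addCases (fun i => ?_) (fun i => ?_) i
    · have : (Fin.castAdd q (Fin.castAdd m i)) ∉ X.map (emb r m q) := by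
        simp only [Finset.mem_map, not_exists, not_and]
        intro x _ hx
        have := congrArg Fin.val hx
        simp [emb] at this
        omega
      simp [bump, blk, this]
    · have : (Fin.castAdd q (Fin.natAdd r i)) ∈ X.map (emb r m q) ↔ i ∈ X := by
        have e : (Fin.castAdd q (Fin.natAdd r i)) = emb r m q i := rfl
        rw [e, Finset.mem_map']
      simp [bump, blk, this]
  · have : (Fin.natAdd (r + m) i) ∉ X.map (emb r m q) := by
      simp only [Finset.mem_map, not_exists, not_and]
      intro x _ hx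
      have := congrArg Fin.val hx
      simp [emb] at this
      omega
    simp [bump, blk, this]

theorem winner_lift (α : Fin (r + m + q) → ℝ) (H : ℕ) (s : Fin m → ℕ) (hs : ∀ w, s w + 1 ≤ H)
    (I : Issue m) : winner α (blk r m q H s) (lift r m q I) = winner (win r m q α) s I := by
  have hb : ∀ X : Finset (Fin m), ∀ w, bump s X w ≤ H := by
    intro X w
    have := hs w
    simp only [bump]; split_ifs <;> omega
  unfold winner
  congr 1
  ext d
  simp only [Set.mem_ofPred_eq, lift, bump_blk, owa_blk r m q α H _ (hb _)]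
  refine and_congr_right fun _ => forall_congr' fun e => imp_congr_right fun _ => ?_
  constructor <;> intro h <;> linarith

theorem run_lift (α : Fin (r + m + q) → ℝ) (H : ℕ) (E : List (Issue m)) (s : Fin m → ℕ)
    (hs : ∀ w, s w + E.length ≤ H) :
    run α (blk r m q H s) (E.map (lift r m q)) = run (win r m q α) s E := by
  induction E generalizing s with
  | nil => rfl
  | cons I E ih =>
    have h1 : ∀ w, s w + 1 ≤ H := fun w => by have := hs w; simp at this; omega
    simp only [List.map_cons, run]
    rw [winner_lift r m q α H s h1]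
    congr 1
    have e : bump (blk r m q H s) ((lift r m q I).app (winner (win r m q α) s I)) =
        blk r m q H (bump s (I.app (winner (win r m q α) s I))) := bump_blk _ _ _ _ _ _
    rw [e]
    apply ih
    intro w
    have := hs w
    simp only [List.length_cons] at this
    simp only [bump]; split_ifs <;> omega

theorem sat_lift (E : List (Issue m)) (v : Fin m) (w : List ℕ) :
    sat (emb r m q v) (E.map (lift r m q)) w = sat v E w := by
  induction E generalizing w with
  | nil => rfl
  | cons I E ih =>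
    cases w with
    | nil => rfl
    | cons c w =>
      simp only [List.map_cons, sat, ih]
      have : emb r m q v ∈ (lift r m q I).app c ↔ v ∈ I.app c := by
        simp only [lift, Finset.mem_map']
      simp only [this]

/-- The single-candidate issue approved by the last `q` voters. -/
def high : Issue (r + m + q) := ⟨0, fun _ => Finset.univ.map (Fin.natAddEmb (r + m))⟩

theorem bump_high (H : ℕ) (s : Fin m → ℕ) :
    bump (blk r m q H s) (Finset.univ.map (Fin.natAddEmb (r + m))) = blk r m q (H + 1) s := by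
  funext i
  refine Fin.addCases (fun i => ?_) (fun i => ?_) i
  · have : (Fin.castAdd q i) ∉ (Finset.univ : Finset (Fin q)).map (Fin.natAddEmb (r + m)) := by
      simp only [Finset.mem_map, not_exists, not_and]
      intro x _ hx
      have := congrArg Fin.val hx
      simp at this
      omega
    simp [bump, blk, this]
  · simp [bump, blk]

theorem winner_single {n : ℕ} (α : Fin n → ℝ) (s : Fin n → ℕ) (I : Issue n) (h : I.last = 0) :
    winner α s I = 0 := by
  have := (winner_spec α s I).1
  omega

theorem run_high (α : Fin (r + m + q) → ℝ) (k H : ℕ) (s : Fin m → ℕ) :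
    run α (blk r m q H s) (List.replicate k (high r m q)) = List.replicate k 0 ∧
      after α (blk r m q H s) (List.replicate k (high r m q)) = blk r m q (H + k) s := by
  induction k generalizing H with
  | zero => simp [run, after]
  | succ k ih =>
    rw [List.replicate_succ, List.replicate_succ]
    simp only [run, after]
    rw [winner_single α _ (high r m q) rfl]
    have e : bump (blk r m q H s) ((high r m q).app 0) = blk r m q (H + 1) s :=
      bump_high r m q H s
    rw [e, (ih (H + 1)).1, (ih (H + 1)).2]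
    exact ⟨rfl, by congr 1; omega⟩

theorem outcome_lift (α : Fin (r + m + q) → ℝ) (E : List (Issue m)) (k : ℕ) (hk : E.length ≤ k) :
    outcome α (List.replicate k (high r m q) ++ E.map (lift r m q)) =
      List.replicate k 0 ++ outcome (win r m q α) E := by
  unfold outcome
  have e : (fun _ => 0 : Fin (r + m + q) → ℕ) = blk r m q 0 (fun _ => 0) := by
    funext i
    refine Fin.addCases (fun i => ?_) (fun i => ?_) i
    · refine Fin.addCases (fun i => ?_) (fun i => ?_) i <;> simp [blk]
    · simp [blk]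
  rw [run_append, e, (run_high r m q α k 0 _).1, (run_high r m q α k 0 _).2]
  congr 1
  apply run_lift
  intro w
  omega

theorem neverHarmful_win (α : Fin (r + m + q) → ℝ) (hN : NeverHarmful α) :
    NeverHarmful (win r m q α) := by
  intro P Q I I' v c hlast happ hc hc' hv hv'
  set k := (P ++ I :: Q).length with hk
  set R := List.replicate k (high r m q) with hR
  have e1 : (R ++ P.map (lift r m q)) ++ lift r m q I :: Q.map (lift r m q) =
      R ++ (P ++ I :: Q).map (lift r m q) := by simp
  have e2 : (R ++ P.map (lift r m q)) ++ lift r m q I' :: Q.map (lift r m q) =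
      R ++ (P ++ I' :: Q).map (lift r m q) := by simp
  have o1 := outcome_lift r m q α (P ++ I :: Q) k le_rfl
  have o2 := outcome_lift r m q α (P ++ I' :: Q) k (by simp [hk])
  have hl : (R ++ P.map (lift r m q)).length = k + P.length := by simp [hR]
  have key := hN (R ++ P.map (lift r m q)) (Q.map (lift r m q)) (lift r m q I) (lift r m q I')
    (emb r m q v) c (by simpa [lift] using hlast) ?_ ?_ ?_ ?_ ?_
  · rw [e1, e2, o1, o2] at key
    rw [sat_append _ _ _ _ _ (by simp [hR]), sat_append _ _ _ _ _ (by simp [hR]), sat_lift,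
      sat_lift] at key
    exact Nat.le_of_add_le_add_left key
  · intro d hd u hu
    simp only [lift, Finset.mem_map]
    constructor
    · rintro ⟨x, hx, rfl⟩
      exact ⟨x, (happ d hd x (fun h => hu (by rw [h]))).1 hx, rfl⟩
    · rintro ⟨x, hx, rfl⟩
      exact ⟨x, (happ d hd x (fun h => hu (by rw [h]))).2 hx, rfl⟩
  · rw [e1, o1, hl, List.getElem?_append_right (by simp), List.length_replicate,
      Nat.add_sub_cancel_left]
    exact hc
  · rw [e2, o2, hl, List.getElem?_append_right (by simp), List.length_replicate,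
      Nat.add_sub_cancel_left]
    exact hc'
  · simpa [lift] using hv
  · simpa [lift] using hv'

end window

theorem neverHarmful_window {n : ℕ} (α : Fin n → ℝ) (hN : NeverHarmful α) (r m : ℕ)
    (h : r + m ≤ n) : NeverHarmful (fun j : Fin m => α ⟨r + j, by omega⟩) := by
  obtain ⟨q, rfl⟩ := Nat.exists_eq_add_of_le h
  exact neverHarmful_win r m q α hN

/-! ### The small harmful elections -/

/-- An issue with one candidate. -/
def one {n : ℕ} (X : Finset (Fin n)) : Issue n := ⟨0, fun _ => X⟩

/-- An issue with two candidates. -/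
def two {n : ℕ} (X Y : Finset (Fin n)) : Issue n := ⟨1, fun c => if c = 0 then X else Y⟩

theorem run_one {n : ℕ} (α : Fin n → ℝ) (s s' : Fin n → ℕ) (X : Finset (Fin n))
    (E : List (Issue n)) (hs : bump s X = s') : run α s (one X :: E) = 0 :: run α s' E := by
  simp only [run]
  rw [winner_single α s (one X) rfl, ← hs]
  rfl

theorem run_two_fst {n : ℕ} (α : Fin n → ℝ) (s s' t' : Fin n → ℕ) (X Y : Finset (Fin n))
    (E : List (Issue n)) (hs : bump s X = s') (ht : bump s Y = t') (h : owa α t' ≤ owa α s') :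
    run α s (two X Y :: E) = 0 :: run α s' E := by
  have hw : winner α s (two X Y) = 0 := by
    have h1 := (winner_spec α s (two X Y)).1
    rcases Nat.lt_or_ge 0 (winner α s (two X Y)) with h2 | h2
    · have h3 : winner α s (two X Y) = 1 := le_antisymm h1 h2
      have := winner_le α s (two X Y) 0 (by simp) (by
        rw [h3]
        simpa [two, hs, ht] using h)
      omega
    · omega
  simp only [run]
  rw [hw, ← hs]
  rfl

theorem run_two_snd {n : ℕ} (α : Fin n → ℝ) (s s' t' : Fin n → ℕ) (X Y : Finset (Fin n))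
    (E : List (Issue n)) (hs : bump s X = s') (ht : bump s Y = t') (h : owa α s' < owa α t') :
    run α s (two X Y :: E) = 1 :: run α t' E := by
  have hw : winner α s (two X Y) = 1 := by
    have h1 := (winner_spec α s (two X Y)).1
    rcases Nat.lt_or_ge 0 (winner α s (two X Y)) with h2 | h2
    · exact le_antisymm h1 h2
    · have h3 : winner α s (two X Y) = 0 := by omega
      have := (winner_spec α s (two X Y)).2 1 (by simp [two])
      rw [h3] at this
      simp only [two, if_true, one_ne_zero, if_false] at this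
      rw [hs, ht] at this
      linarith
  simp only [run]
  rw [hw, ← ht]
  rfl

theorem harm_of {n : ℕ} (α : Fin n → ℝ) (X : Finset (Fin n)) (Q : List (Issue n)) (v : Fin n)
    (w w' : List ℕ) (hv : v ∈ X)
    (h1 : run α (bump (fun _ => 0) X) Q = w) (h2 : run α (bump (fun _ => 0) (X.erase v)) Q = w')
    (h3 : sat v Q w' < sat v Q w) : ¬ NeverHarmful α := by
  intro hN
  have o1 : outcome α (one X :: Q) = 0 :: w := by
    unfold outcome; rw [run_one α _ _ X Q rfl, h1]
  have o2 : outcome α (one (X.erase v) :: Q) = 0 :: w' := by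
    unfold outcome; rw [run_one α _ _ (X.erase v) Q rfl, h2]
  have := hN [] Q (one X) (one (X.erase v)) v 0 rfl
    (by intro d _ u hu; simp [one, hu])
    (by simp [o1]) (by simp [o2]) (by simpa [one] using hv) (by simp [one])
  simp only [List.nil_append, o1, o2, sat] at this
  omega

theorem harm_two (α : Fin 2 → ℝ) (h : α 0 < α 1) : ¬ NeverHarmful α := by
  apply harm_of α {0} [two {1} {0}] 0 [1] [0] (by simp)
  · rw [show bump (fun _ => 0) {0} = ![1, 0] by decide]
    rw [run_two_snd α _ ![1, 1] ![2, 0] _ _ _ (by decide) (by decide)]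
    · rfl
    · simp [owa_two]; linarith
  · rw [show bump (fun _ => 0) (({0} : Finset (Fin 2)).erase 0) = ![0, 0] by decide]
    rw [run_two_fst α _ ![0, 1] ![1, 0] _ _ _ (by decide) (by decide)]
    · rfl
    · simp [owa_two]
  · decide

theorem harm_three_a (α : Fin 3 → ℝ) (h1 : α 1 < α 0) (h2 : α 1 = α 2) : ¬ NeverHarmful α := by
  apply harm_of α {0, 1, 2} [one {2}, two {0, 2} {0, 1}, one {0}, two {0} {1}] 0
    [0, 1, 0, 0] [0, 0, 0, 1] (by simp)
  · rw [show bump (fun _ => 0) {0, 1, 2} = ![1, 1, 1] by decide,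
      run_one α _ ![1, 1, 2] _ _ (by decide),
      run_two_snd α _ ![2, 1, 3] ![2, 2, 2] _ _ _ (by decide) (by decide),
      run_one α _ ![3, 2, 2] _ _ (by decide),
      run_two_fst α _ ![4, 2, 2] ![3, 3, 2] _ _ _ (by decide) (by decide)]
    · rfl
    · simp [owa_three]; norm_num; linarith
    · simp [owa_three]; norm_num; linarith
  · rw [show bump (fun _ => 0) (({0, 1, 2} : Finset (Fin 3)).erase 0) = ![0, 1, 1] by decide,
      run_one α _ ![0, 1, 2] _ _ (by decide),
      run_two_fst α _ ![1, 1, 3] ![1, 2, 2] _ _ _ (by decide) (by decide),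
      run_one α _ ![2, 1, 3] _ _ (by decide),
      run_two_snd α _ ![3, 1, 3] ![2, 2, 3] _ _ _ (by decide) (by decide)]
    · rfl
    · simp [owa_three]; norm_num; linarith
    · simp [owa_three]; norm_num; linarith
  · decide

theorem harm_three_b (α : Fin 3 → ℝ) (h1 : α 0 = α 1) (h2 : α 2 < α 1) : ¬ NeverHarmful α := by
  apply harm_of α {0, 2} [two {0, 2} {0, 1}, one {1, 2}, two {1, 2} {0, 1}] 0
    [0, 0, 1] [1, 0, 0] (by simp)
  · rw [show bump (fun _ => 0) {0, 2} = ![1, 0, 1] by decide,
      run_two_fst α _ ![2, 0, 2] ![2, 1, 1] _ _ _ (by decide) (by decide),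
      run_one α _ ![2, 1, 3] _ _ (by decide),
      run_two_snd α _ ![2, 2, 4] ![3, 2, 3] _ _ _ (by decide) (by decide)]
    · rfl
    · simp [owa_three]; norm_num; linarith
    · simp [owa_three]; norm_num; linarith
  · rw [show bump (fun _ => 0) (({0, 2} : Finset (Fin 3)).erase 0) = ![0, 0, 1] by decide,
      run_two_snd α _ ![1, 0, 2] ![1, 1, 1] _ _ _ (by decide) (by decide),
      run_one α _ ![1, 2, 2] _ _ (by decide),
      run_two_fst α _ ![1, 3, 3] ![2, 3, 2] _ _ _ (by decide) (by decide)]
    · rfl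
    · simp [owa_three]; norm_num; linarith
    · simp [owa_three]; norm_num; linarith
  · decide

theorem harm_three_c (α : Fin 3 → ℝ) (h0 : 0 < α 0) (h1 : 0 < α 1) (h2 : α 2 = 0) :
    ¬ NeverHarmful α := by
  apply harm_of α {0, 1, 2} [two {0} {0, 1}, two {1} {2}, two {2} {0, 1}] 0
    [1, 1, 1] [0, 0, 0] (by simp)
  · rw [show bump (fun _ => 0) {0, 1, 2} = ![1, 1, 1] by decide,
      run_two_snd α _ ![2, 1, 1] ![2, 2, 1] _ _ _ (by decide) (by decide),
      run_two_snd α _ ![2, 3, 1] ![2, 2, 2] _ _ _ (by decide) (by decide),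
      run_two_snd α _ ![2, 2, 3] ![3, 3, 2] _ _ _ (by decide) (by decide)]
    · rfl
    · simp [owa_three, h2]; norm_num; linarith
    · simp [owa_three, h2]; norm_num; linarith
    · simp [owa_three, h2]; norm_num; linarith
  · rw [show bump (fun _ => 0) (({0, 1, 2} : Finset (Fin 3)).erase 0) = ![0, 1, 1] by decide,
      run_two_fst α _ ![1, 1, 1] ![1, 2, 1] _ _ _ (by decide) (by decide),
      run_two_fst α _ ![1, 2, 1] ![1, 1, 2] _ _ _ (by decide) (by decide),
      run_two_fst α _ ![1, 2, 2] ![2, 3, 1] _ _ _ (by decide) (by decide)]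
    · rfl
    · simp [owa_three, h2]; try norm_num
      try linarith
    · simp [owa_three, h2]; try norm_num
      try linarith
    · simp [owa_three, h2]; try norm_num
      try linarith
  · decide

theorem harm_three_d (α : Fin 3 → ℝ) (h1 : α 2 < α 0) (h2 : 0 < α 1) (h3 : 0 < α 2)
    (h : α 1 + α 2 ≤ α 0) : ¬ NeverHarmful α := by
  apply harm_of α {0, 1, 2} [two {0} {1, 2}, two {1} {0}, one {0}, two {2} {0, 1}] 0
    [1, 1, 0, 1] [0, 0, 0, 0] (by simp)
  · rw [show bump (fun _ => 0) {0, 1, 2} = ![1, 1, 1] by decide,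
      run_two_snd α _ ![2, 1, 1] ![1, 2, 2] _ _ _ (by decide) (by decide),
      run_two_snd α _ ![1, 3, 2] ![2, 2, 2] _ _ _ (by decide) (by decide),
      run_one α _ ![3, 2, 2] _ _ (by decide),
      run_two_snd α _ ![3, 2, 3] ![4, 3, 2] _ _ _ (by decide) (by decide)]
    · rfl
    · simp [owa_three]; norm_num; linarith
    · simp [owa_three]; norm_num; linarith
    · simp [owa_three]; norm_num; linarith
  · rw [show bump (fun _ => 0) (({0, 1, 2} : Finset (Fin 3)).erase 0) = ![0, 1, 1] by decide,
      run_two_fst α _ ![1, 1, 1] ![0, 2, 2] _ _ _ (by decide) (by decide),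
      run_two_fst α _ ![1, 2, 1] ![2, 1, 1] _ _ _ (by decide) (by decide),
      run_one α _ ![2, 2, 1] _ _ (by decide),
      run_two_fst α _ ![2, 2, 2] ![3, 3, 1] _ _ _ (by decide) (by decide)]
    · rfl
    · simp [owa_three]; try norm_num
      try linarith
    · simp [owa_three]; try norm_num
      try linarith
    · simp [owa_three]; try norm_num
      try linarith
  · decide

theorem owa_four (α : Fin 4 → ℝ) (s : Fin 4 → ℕ) (a b c d : ℕ) (hab : a ≤ b) (hbc : b ≤ c)
    (hcd : c ≤ d) (σ : Equiv.Perm (Fin 4)) (h : s ∘ σ = ![a, b, c, d]) :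
    owa α s = α 0 * a + α 1 * b + α 2 * c + α 3 * d := by
  rw [owa_of_sorted α s ![a, b, c, d] σ ?_ h]
  · simp [Fin.sum_univ_four]
  · intro i j hij
    fin_cases i <;> fin_cases j <;> simp_all <;> omega

theorem harm_four (α : Fin 4 → ℝ) (h1 : α 2 < α 0) (h2 : α 3 < α 1) (h3 : α 3 < α 0) :
    ¬ NeverHarmful α := by
  have e1 : owa α ![2, 1, 1, 1] = α 0 * (1 : ℕ) + α 1 * (1 : ℕ) + α 2 * (1 : ℕ) + α 3 * (2 : ℕ) :=
    owa_four α _ 1 1 1 2 (by norm_num) (by norm_num) (by norm_num) (Equiv.swap 0 3) (by decide)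
  have e2 : owa α ![1, 2, 1, 1] = α 0 * (1 : ℕ) + α 1 * (1 : ℕ) + α 2 * (1 : ℕ) + α 3 * (2 : ℕ) :=
    owa_four α _ 1 1 1 2 (by norm_num) (by norm_num) (by norm_num) (Equiv.swap 1 3) (by decide)
  have e3 : owa α ![1, 3, 1, 2] = α 0 * (1 : ℕ) + α 1 * (1 : ℕ) + α 2 * (2 : ℕ) + α 3 * (3 : ℕ) :=
    owa_four α _ 1 1 2 3 (by norm_num) (by norm_num) (by norm_num)
      (Equiv.swap 1 3 * Equiv.swap 1 2) (by decide)
  have e4 : owa α ![2, 2, 2, 1] = α 0 * (1 : ℕ) + α 1 * (2 : ℕ) + α 2 * (2 : ℕ) + α 3 * (2 : ℕ) :=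
    owa_four α _ 1 2 2 2 (by norm_num) (by norm_num) (by norm_num) (Equiv.swap 0 3) (by decide)
  have e5 : owa α ![2, 3, 3, 1] = α 0 * (1 : ℕ) + α 1 * (2 : ℕ) + α 2 * (3 : ℕ) + α 3 * (3 : ℕ) :=
    owa_four α _ 1 2 3 3 (by norm_num) (by norm_num) (by norm_num)
      (Equiv.swap 0 3 * Equiv.swap 1 3) (by decide)
  have e6 : owa α ![3, 2, 2, 2] = α 0 * (2 : ℕ) + α 1 * (2 : ℕ) + α 2 * (2 : ℕ) + α 3 * (3 : ℕ) :=
    owa_four α _ 2 2 2 3 (by norm_num) (by norm_num) (by norm_num) (Equiv.swap 0 3) (by decide)
  have e7 : owa α ![0, 2, 1, 1] = α 0 * (0 : ℕ) + α 1 * (1 : ℕ) + α 2 * (1 : ℕ) + α 3 * (2 : ℕ) :=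
    owa_four α _ 0 1 1 2 (by norm_num) (by norm_num) (by norm_num) (Equiv.swap 1 3) (by decide)
  have e8 : owa α ![1, 1, 1, 1] = α 0 * (1 : ℕ) + α 1 * (1 : ℕ) + α 2 * (1 : ℕ) + α 3 * (1 : ℕ) :=
    owa_four α _ 1 1 1 1 (by norm_num) (by norm_num) (by norm_num) 1 (by decide)
  have e9 : owa α ![1, 2, 1, 2] = α 0 * (1 : ℕ) + α 1 * (1 : ℕ) + α 2 * (2 : ℕ) + α 3 * (2 : ℕ) :=
    owa_four α _ 1 1 2 2 (by norm_num) (by norm_num) (by norm_num) (Equiv.swap 1 2) (by decide)
  have e10 : owa α ![2, 1, 2, 1] = α 0 * (1 : ℕ) + α 1 * (1 : ℕ) + α 2 * (2 : ℕ) + α 3 * (2 : ℕ) :=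
    owa_four α _ 1 1 2 2 (by norm_num) (by norm_num) (by norm_num) (Equiv.swap 0 3) (by decide)
  have e11 : owa α ![1, 3, 2, 2] = α 0 * (1 : ℕ) + α 1 * (2 : ℕ) + α 2 * (2 : ℕ) + α 3 * (3 : ℕ) :=
    owa_four α _ 1 2 2 3 (by norm_num) (by norm_num) (by norm_num) (Equiv.swap 1 3) (by decide)
  have e12 : owa α ![2, 2, 1, 3] = α 0 * (1 : ℕ) + α 1 * (2 : ℕ) + α 2 * (2 : ℕ) + α 3 * (3 : ℕ) :=
    owa_four α _ 1 2 2 3 (by norm_num) (by norm_num) (by norm_num) (Equiv.swap 0 2) (by decide)
  push_cast at e1 e2 e3 e4 e5 e6 e7 e8 e9 e10 e11 e12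
  apply harm_of α {0, 1, 2, 3} [two {1} {0}, two {3, 1} {0, 2}, two {2, 1} {0, 3}] 0
    [0, 1, 1] [1, 0, 0] (by simp)
  · rw [show bump (fun _ => 0) {0, 1, 2, 3} = ![1, 1, 1, 1] by decide,
      run_two_fst α _ ![1, 2, 1, 1] ![2, 1, 1, 1] _ _ _ (by decide) (by decide),
      run_two_snd α _ ![1, 3, 1, 2] ![2, 2, 2, 1] _ _ _ (by decide) (by decide),
      run_two_snd α _ ![2, 3, 3, 1] ![3, 2, 2, 2] _ _ _ (by decide) (by decide)]
    · rfl
    · rw [e5, e6]; linarith
    · rw [e3, e4]; linarith
    · rw [e1, e2]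
  · rw [show bump (fun _ => 0) (({0, 1, 2, 3} : Finset (Fin 4)).erase 0) = ![0, 1, 1, 1] by decide,
      run_two_snd α _ ![0, 2, 1, 1] ![1, 1, 1, 1] _ _ _ (by decide) (by decide),
      run_two_fst α _ ![1, 2, 1, 2] ![2, 1, 2, 1] _ _ _ (by decide) (by decide),
      run_two_fst α _ ![1, 3, 2, 2] ![2, 2, 1, 3] _ _ _ (by decide) (by decide)]
    · rfl
    · rw [e11, e12]
    · rw [e9, e10]
    · rw [e7, e8]; linarith
  · decide

/-! ### The classification -/

/-- The weights for which free-riding is never harmful: constant weights; for two voters all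
weights with `α₁ ≥ α₂`; for three voters the weights with `α₁ > α₂ > α₃ > 0` and
`α₁ < α₂ + α₃`. -/
def Good {n : ℕ} (α : Fin n → ℝ) : Prop :=
  (∃ c, ∀ j, α j = c) ∨
  (∃ h : n = 2, α ⟨1, by omega⟩ ≤ α ⟨0, by omega⟩) ∨
  (∃ h : n = 3, α ⟨1, by omega⟩ < α ⟨0, by omega⟩ ∧ α ⟨2, by omega⟩ < α ⟨1, by omega⟩ ∧
    0 < α ⟨2, by omega⟩ ∧ α ⟨0, by omega⟩ < α ⟨1, by omega⟩ + α ⟨2, by omega⟩)

theorem neverHarmful_iff {n : ℕ} (α : Fin n → ℝ) (h0 : ∀ h : 0 < n, 0 < α ⟨0, h⟩)
    (hnn : ∀ j, 0 ≤ α j) : NeverHarmful α ↔ Good α := by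
  constructor
  · intro hN
    have mono : ∀ r (h : r + 1 < n), α ⟨r + 1, h⟩ ≤ α ⟨r, by omega⟩ := by
      intro r h
      by_contra hneg
      exact harm_two _ (show α ⟨r, by omega⟩ < α ⟨r + 1, h⟩ from not_le.1 hneg)
        (neverHarmful_window α hN r 2 (by omega))
    have A : ∀ r (h : r + 2 < n), α ⟨r + 1, by omega⟩ < α ⟨r, by omega⟩ →
        α ⟨r + 2, h⟩ < α ⟨r + 1, by omega⟩ := by
      intro r h hr
      by_contra hneg
      exact harm_three_a _ (show α ⟨r + 1, by omega⟩ < α ⟨r, by omega⟩ from hr)
        (show α ⟨r + 1, by omega⟩ = α ⟨r + 2, h⟩ from le_antisymm (not_lt.1 hneg) (mono (r + 1) h))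
        (neverHarmful_window α hN r 3 (by omega))
    have B : ∀ r (h : r + 2 < n), α ⟨r + 2, h⟩ < α ⟨r + 1, by omega⟩ →
        α ⟨r + 1, by omega⟩ < α ⟨r, by omega⟩ := by
      intro r h hr
      by_contra hneg
      exact harm_three_b _ (show α ⟨r, by omega⟩ = α ⟨r + 1, by omega⟩ from
          le_antisymm (not_lt.1 hneg) (mono r (by omega)))
        (show α ⟨r + 2, h⟩ < α ⟨r + 1, by omega⟩ from hr)
        (neverHarmful_window α hN r 3 (by omega))
    by_cases hex : ∃ r, ∃ h : r + 1 < n, α ⟨r + 1, h⟩ < α ⟨r, by omega⟩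
    · obtain ⟨r, h, hr⟩ := hex
      have hdown : ∀ r (h : r + 1 < n), α ⟨r + 1, h⟩ < α ⟨r, by omega⟩ →
          α ⟨1, by omega⟩ < α ⟨0, by omega⟩ := by
        intro r
        induction r with
        | zero => intro h hr; exact hr
        | succ r ih => intro h hr; exact ih (by omega) (B r h hr)
      have h10 := hdown r h hr
      have hup : ∀ r (h : r + 1 < n), α ⟨r + 1, h⟩ < α ⟨r, by omega⟩ := by
        intro r
        induction r with
        | zero => intro h; exact h10
        | succ r ih => intro h; exact A r h (ih (by omega))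
      have hn : n = 2 ∨ n = 3 ∨ 4 ≤ n := by omega
      rcases hn with hn | hn | hn
      · subst hn
        exact Or.inr (Or.inl ⟨rfl, h10.le⟩)
      · subst hn
        have h21 := hup 1 (by omega)
        have hN' : NeverHarmful α := hN
        have h2 : 0 < α 2 := by
          rcases (hnn 2).lt_or_eq with hlt | heq
          · exact hlt
          · exact absurd hN' (harm_three_c α (h0 (by norm_num))
              (lt_of_le_of_lt (hnn 2) h21) heq.symm)
        refine Or.inr (Or.inr ⟨rfl, h10, h21, h2, ?_⟩)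
        by_contra hneg
        exact harm_three_d α (show α 2 < α 0 from h21.trans h10)
          (show 0 < α 1 from h2.trans h21) h2 (not_lt.1 hneg) hN'
      · exfalso
        have h21 := hup 1 (by omega)
        have h32 := hup 2 (by omega)
        exact harm_four _ (show α ⟨0 + 2, by omega⟩ < α ⟨0, by omega⟩ from h21.trans h10)
          (show α ⟨0 + 3, by omega⟩ < α ⟨0 + 1, by omega⟩ from h32.trans h21)
          (show α ⟨0 + 3, by omega⟩ < α ⟨0, by omega⟩ from (h32.trans h21).trans h10)
          (neverHarmful_window α hN 0 4 (by omega))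
    · push Not at hex
      left
      rcases Nat.eq_zero_or_pos n with hn | hn
      · subst hn; exact ⟨0, fun j => j.elim0⟩
      · refine ⟨α ⟨0, hn⟩, ?_⟩
        have : ∀ r (h : r < n), α ⟨r, h⟩ = α ⟨0, hn⟩ := by
          intro r
          induction r with
          | zero => intro h; rfl
          | succ r ih =>
            intro h
            rw [← ih (by omega)]
            exact le_antisymm (mono r h) (hex r h)
        intro j
        exact this j.1 j.2
  · rintro (⟨c, hc⟩ | ⟨h, h1⟩ | ⟨h, h1, h2, h3, h4⟩)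
    · exact neverHarmful_const α c hc
    · subst h; exact neverHarmful_two α h1
    · subst h; exact neverHarmful_three α h1 h2 h3 h4

/-- An OWA rule: nonnegative weights for every number of voters, the first one positive. -/
def IsRule (α : ∀ n : ℕ, Fin n → ℝ) : Prop :=
  ∀ n, (∀ j, 0 ≤ α n j) ∧ ∀ h : 0 < n, 0 < α n ⟨0, h⟩

/-- **Theorem.** Free-riding is never harmful under the sequential OWA rule `α` if and only if, for
every number `n` of voters, the weights are constant, or `n = 2` and `α₁ ≥ α₂`, or `n = 3` and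
`α₁ > α₂ > α₃ > 0` and `α₁ < α₂ + α₃`. In particular there is such a rule that is not the
utilitarian rule. -/
theorem result :
    (∀ α : (n : ℕ) → Fin n → ℝ, IsRule α →
      ((∀ n, NeverHarmful (α n)) ↔ ∀ n, Good (α n))) ∧
    ∃ α : (n : ℕ) → Fin n → ℝ, IsRule α ∧ (∀ n, NeverHarmful (α n)) ∧
      (¬ ∃ c, ∀ j, α 2 j = c) ∧ ¬ ∃ c, ∀ j, α 3 j = c := by
  refine ⟨fun α hα => forall_congr' fun n => neverHarmful_iff (α n) (hα n).2 (hα n).1, ?_⟩
  let α : (n : ℕ) → Fin n → ℝ := fun n j =>
    if n = 2 ∨ n = 3 then 4 - (j : ℝ) else 1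
  have hr : IsRule α := by
    intro n
    constructor
    · intro j
      simp only [α]
      split_ifs with h
      · have : (j : ℕ) < 3 := by have := j.2; omega
        have : ((j : ℕ) : ℝ) < 3 := by exact_mod_cast this
        linarith
      · norm_num
    · intro h
      simp only [α]
      split_ifs with h
      · norm_num
      · norm_num
  refine ⟨α, hr, ?_, ?_, ?_⟩
  · intro n
    rw [neverHarmful_iff (α n) (hr n).2 (hr n).1]
    by_cases h2 : n = 2
    · right; left; subst h2; refine ⟨rfl, ?_⟩; simp [α]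
    · by_cases h3 : n = 3
      · right; right; subst h3; refine ⟨rfl, ?_, ?_, ?_, ?_⟩ <;> simp [α] <;> norm_num
      · left; exact ⟨1, fun j => by simp [α, h2, h3]⟩
  · rintro ⟨c, hc⟩
    have h0 := hc 0
    have h1 := hc 1
    simp [α] at h0 h1
    linarith
  · rintro ⟨c, hc⟩
    have h0 := hc 0
    have h1 := hc 1
    simp [α] at h0 h1
    linarith

end Pool.Agent.Results.MP_57045c_lc.Classification
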